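import Pool.Agent.CRV.Main

set_option autoImplicit false

namespace Pool.Agent.Results.MP_6a7bbd_co.PlanarGraphs

open Pool.Agent.CRV (IsPlanar IsCRVG)

/-- Every finite planar graph is a corner rectangle visibility graph. -/
theorem result {V : Type} [Finite V] (G : SimpleGraph V) (h : IsPlanar G) : IsCRVG G :=
  Pool.Agent.CRV.main G h

end Pool.Agent.Results.MP_6a7bbd_co.PlanarGraphs
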